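import Mathlib

set_option autoImplicit false

/-!
A semiprime Jordan ring with 128 elements having an ideal that is not semiprime.

Let `S` be the three-dimensional simple algebra over the field with two elements with basis `e1, e2, e3` and
products `e1 e2 = e3`, `e2 e3 = e1`, `e3 e1 = e2`, `x x = 0`, and let `O` be the algebra of dual numbers
`F2[t]/(t^2)` with the derivation `d/dt`. The ring is `J = (S ⊗ O) + F2 d`, where `d` acts on `S ⊗ O` as `d/dt`.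
Its elements are `a + b t + c d` with `a, b` in `S` and `c` in `F2`. Here `x x = 0` for all `x`, hence `x y = y x`
(the characteristic is two) and the Jordan identity holds. The ideal is `I = S ⊗ O` and `K = S t` is an ideal of `I`
of square zero. The linearised Jordan identity (not a consequence of the Jordan identity in characteristic two)
holds in `J` as well.
-/

namespace Pool.Agent.Results.MP_75529e_al.SemiprimeIdealChar2

/-- The ring is Jordan: commutative, and `(x² y) x = x² (y x)`. -/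
def IsJordan (R : Type) [NonUnitalNonAssocRing R] : Prop :=
  (∀ x y : R, x * y = y * x) ∧ ∀ x y : R, ((x * x) * y) * x = (x * x) * (y * x)

/-- The linearised Jordan identity. -/
def LinearizedJordan (R : Type) [NonUnitalNonAssocRing R] : Prop :=
  ∀ x y z t : R, ((x * z) * y) * t + ((z * t) * y) * x + ((t * x) * y) * z =
    (x * z) * (y * t) + (z * t) * (y * x) + (t * x) * (y * z)

/-- The additive subgroup `I` is a two-sided ideal of the ring `R`. -/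
def IsIdeal {R : Type} [NonUnitalNonAssocRing R] (I : AddSubgroup R) : Prop :=
  ∀ r : R, ∀ x ∈ I, r * x ∈ I ∧ x * r ∈ I

/-- The ring `R` has no nonzero ideal `K` with `K² = 0`. -/
def IsSemiprimeRing (R : Type) [NonUnitalNonAssocRing R] : Prop :=
  ∀ K : AddSubgroup R, IsIdeal K → (∀ a ∈ K, ∀ b ∈ K, a * b = 0) → K = ⊥

/-- The elements `a + b t + c d`; `a0 a1 a2` are the coordinates of `a`, `b0 b1 b2` those of `b`. -/
@[ext] structure J : Type where
  a0 : ZMod 2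
  a1 : ZMod 2
  a2 : ZMod 2
  b0 : ZMod 2
  b1 : ZMod 2
  b2 : ZMod 2
  c : ZMod 2
deriving DecidableEq

namespace J

instance : Zero J := ⟨⟨0, 0, 0, 0, 0, 0, 0⟩⟩
instance : Add J := ⟨fun u v => ⟨u.a0 + v.a0, u.a1 + v.a1, u.a2 + v.a2,
  u.b0 + v.b0, u.b1 + v.b1, u.b2 + v.b2, u.c + v.c⟩⟩
instance : Neg J := ⟨fun u => ⟨-u.a0, -u.a1, -u.a2, -u.b0, -u.b1, -u.b2, -u.c⟩⟩

/-- The product `(a + b t + c d)(a' + b' t + c' d) = (a a' + c b' + c' b) + (a b' + b a') t`. -/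
instance : Mul J := ⟨fun u v =>
  ⟨u.a1 * v.a2 - u.a2 * v.a1 + u.c * v.b0 + v.c * u.b0,
   u.a2 * v.a0 - u.a0 * v.a2 + u.c * v.b1 + v.c * u.b1,
   u.a0 * v.a1 - u.a1 * v.a0 + u.c * v.b2 + v.c * u.b2,
   u.a1 * v.b2 - u.a2 * v.b1 + (u.b1 * v.a2 - u.b2 * v.a1),
   u.a2 * v.b0 - u.a0 * v.b2 + (u.b2 * v.a0 - u.b0 * v.a2),
   u.a0 * v.b1 - u.a1 * v.b0 + (u.b0 * v.a1 - u.b1 * v.a0),
   0⟩⟩

theorem zero_def : (0 : J) = ⟨0, 0, 0, 0, 0, 0, 0⟩ := rfl
theorem add_def (u v : J) : u + v = ⟨u.a0 + v.a0, u.a1 + v.a1, u.a2 + v.a2,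
  u.b0 + v.b0, u.b1 + v.b1, u.b2 + v.b2, u.c + v.c⟩ := rfl
theorem neg_def (u : J) : -u = ⟨-u.a0, -u.a1, -u.a2, -u.b0, -u.b1, -u.b2, -u.c⟩ := rfl
theorem mul_def (u v : J) : u * v =
  ⟨u.a1 * v.a2 - u.a2 * v.a1 + u.c * v.b0 + v.c * u.b0,
   u.a2 * v.a0 - u.a0 * v.a2 + u.c * v.b1 + v.c * u.b1,
   u.a0 * v.a1 - u.a1 * v.a0 + u.c * v.b2 + v.c * u.b2,
   u.a1 * v.b2 - u.a2 * v.b1 + (u.b1 * v.a2 - u.b2 * v.a1),
   u.a2 * v.b0 - u.a0 * v.b2 + (u.b2 * v.a0 - u.b0 * v.a2),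
   u.a0 * v.b1 - u.a1 * v.b0 + (u.b0 * v.a1 - u.b1 * v.a0),
   0⟩ := rfl

instance : NonUnitalNonAssocRing J where
  add_assoc u v w := by simp [add_def, add_assoc]
  zero_add u := by simp [add_def, zero_def]
  add_zero u := by simp [add_def, zero_def]
  add_comm u v := by simp [add_def, add_comm]
  neg_add_cancel u := by ext <;> exact neg_add_cancel _
  nsmul := nsmulRec
  zsmul := zsmulRec
  left_distrib u v w := by ext <;> simp only [add_def, mul_def] <;> ring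
  right_distrib u v w := by ext <;> simp only [add_def, mul_def] <;> ring
  zero_mul u := by ext <;> simp [mul_def, zero_def]
  mul_zero u := by ext <;> simp [mul_def, zero_def]

theorem two (x : ZMod 2) : x + x = 0 := by revert x; decide

theorem add_self (u : J) : u + u = 0 := by
  ext <;> exact two _

theorem mul_self (u : J) : u * u = 0 := by
  ext <;> simp only [mul_def, zero_def]
  · linear_combination two (u.c * u.b0)
  · linear_combination two (u.c * u.b1)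
  · linear_combination two (u.c * u.b2)
  · ring
  · ring
  · ring

theorem mul_comm' (u v : J) : u * v = v * u := by
  have h := mul_self (u + v)
  rw [mul_add, add_mul, add_mul, mul_self, mul_self, zero_add, add_zero] at h
  have h2 := add_self (v * u)
  have : u * v = v * u + (v * u + u * v) := by
    rw [← add_assoc, h2, zero_add]
  rw [this, h, add_zero]

theorem isJordan : IsJordan J := by
  refine ⟨mul_comm', fun x y => ?_⟩
  rw [mul_self, zero_mul, zero_mul, zero_mul]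

theorem linearized : LinearizedJordan J := by
  intro x y z t
  ext <;> simp only [mul_def, add_def]
  all_goals
    rw [← sub_eq_zero]
    ring_nf
    reduce_mod_char

/-- The ideal `S ⊗ O`, as a subring. -/
def I : NonUnitalSubring J where
  carrier := {u | u.c = 0}
  mul_mem' _ _ := rfl
  add_mem' {u v} hu hv := by
    change u.c + v.c = 0
    rw [Set.mem_ofPred_eq.mp hu, Set.mem_ofPred_eq.mp hv, add_zero]
  zero_mem' := rfl
  neg_mem' {u} hu := by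
    change -u.c = 0
    rw [Set.mem_ofPred_eq.mp hu, neg_zero]

theorem I_ideal : IsIdeal I.toAddSubgroup := fun _ _ _ => ⟨rfl, rfl⟩

/-- The square-zero ideal `S t` of the ring `I`. -/
def K : AddSubgroup I where
  carrier := {u | u.1.a0 = 0 ∧ u.1.a1 = 0 ∧ u.1.a2 = 0}
  add_mem' {u v} hu hv := by
    obtain ⟨h0, h1, h2⟩ := hu
    obtain ⟨g0, g1, g2⟩ := hv
    refine ⟨?_, ?_, ?_⟩
    · change u.1.a0 + v.1.a0 = 0
      rw [h0, g0, add_zero]
    · change u.1.a1 + v.1.a1 = 0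
      rw [h1, g1, add_zero]
    · change u.1.a2 + v.1.a2 = 0
      rw [h2, g2, add_zero]
  zero_mem' := ⟨rfl, rfl, rfl⟩
  neg_mem' {u} hu := by
    obtain ⟨h0, h1, h2⟩ := hu
    refine ⟨?_, ?_, ?_⟩
    · change -u.1.a0 = 0
      rw [h0, neg_zero]
    · change -u.1.a1 = 0
      rw [h1, neg_zero]
    · change -u.1.a2 = 0
      rw [h2, neg_zero]

theorem K_ideal : IsIdeal K := by
  rintro ⟨r, hr⟩ ⟨x, hx⟩ ⟨h0, h1, h2⟩
  have hr' : r.c = 0 := hr
  have hx' : x.c = 0 := hx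
  have g0 : x.a0 = 0 := h0
  have g1 : x.a1 = 0 := h1
  have g2 : x.a2 = 0 := h2
  refine ⟨⟨?_, ?_, ?_⟩, ⟨?_, ?_, ?_⟩⟩
  · change (r * x).a0 = 0
    simp [mul_def, hr', hx', g0, g1, g2]
  · change (r * x).a1 = 0
    simp [mul_def, hr', hx', g0, g1, g2]
  · change (r * x).a2 = 0
    simp [mul_def, hr', hx', g0, g1, g2]
  · change (x * r).a0 = 0
    simp [mul_def, hr', hx', g0, g1, g2]
  · change (x * r).a1 = 0
    simp [mul_def, hr', hx', g0, g1, g2]
  · change (x * r).a2 = 0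
    simp [mul_def, hr', hx', g0, g1, g2]

theorem K_sq : ∀ a ∈ K, ∀ b ∈ K, a * b = 0 := by
  rintro ⟨r, hr⟩ ⟨k0, k1, k2⟩ ⟨x, hx⟩ ⟨h0, h1, h2⟩
  have hr' : r.c = 0 := hr
  have hx' : x.c = 0 := hx
  have g0 : x.a0 = 0 := h0
  have g1 : x.a1 = 0 := h1
  have g2 : x.a2 = 0 := h2
  have l0 : r.a0 = 0 := k0
  have l1 : r.a1 = 0 := k1
  have l2 : r.a2 = 0 := k2
  apply Subtype.ext
  change r * x = 0
  ext <;> simp [mul_def, zero_def, hr', hx', g0, g1, g2, l0, l1, l2]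

theorem K_ne_bot : K ≠ ⊥ := by
  intro h
  have : (⟨⟨0, 0, 0, 1, 0, 0, 0⟩, rfl⟩ : I) ∈ K := ⟨rfl, rfl, rfl⟩
  rw [h, AddSubgroup.mem_bot] at this
  have h1 := congrArg (fun u : I => u.1.b0) this
  exact absurd h1 (by change ¬ ((1 : ZMod 2) = 0); decide)

theorem step1_dec : ∀ x y z : ZMod 2,
    (⟨x, y, z, 0, 0, 0, 0⟩ : J) * (⟨x, y, z, 0, 0, 0, 0⟩ * ⟨1, 0, 0, 0, 0, 0, 0⟩) = 0 →
    (⟨x, y, z, 0, 0, 0, 0⟩ : J) * (⟨x, y, z, 0, 0, 0, 0⟩ * ⟨0, 1, 0, 0, 0, 0, 0⟩) = 0 →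
    (⟨x, y, z, 0, 0, 0, 0⟩ : J) * (⟨x, y, z, 0, 0, 0, 0⟩ * ⟨0, 0, 1, 0, 0, 0, 0⟩) = 0 →
    x = 0 ∧ y = 0 ∧ z = 0 := by
  decide +kernel

/-- Elements `a ∈ S` of an ideal of square zero vanish. -/
theorem step1 (L : AddSubgroup J) (hL : IsIdeal L) (h0 : ∀ a ∈ L, ∀ b ∈ L, a * b = 0)
    (x y z : ZMod 2) (h : (⟨x, y, z, 0, 0, 0, 0⟩ : J) ∈ L) : x = 0 ∧ y = 0 ∧ z = 0 :=
  step1_dec x y z (h0 _ h _ (hL ⟨1, 0, 0, 0, 0, 0, 0⟩ _ h).2)
    (h0 _ h _ (hL ⟨0, 1, 0, 0, 0, 0, 0⟩ _ h).2) (h0 _ h _ (hL ⟨0, 0, 1, 0, 0, 0, 0⟩ _ h).2)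

/-- Every element of an ideal of square zero lies in `S + F2 d`. -/
theorem step2 (L : AddSubgroup J) (hL : IsIdeal L) (h0 : ∀ a ∈ L, ∀ b ∈ L, a * b = 0)
    (u : J) (h : u ∈ L) : u.b0 = 0 ∧ u.b1 = 0 ∧ u.b2 = 0 := by
  have h1 := (hL ⟨0, 0, 0, 0, 0, 0, 1⟩ _ h).2
  have e : u * ⟨0, 0, 0, 0, 0, 0, 1⟩ = ⟨u.b0, u.b1, u.b2, 0, 0, 0, 0⟩ := by
    ext <;> simp [mul_def]
  rw [e] at h1
  exact step1 L hL h0 _ _ _ h1

theorem semiprime : IsSemiprimeRing J := by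
  intro L hL h0
  rw [eq_bot_iff]
  intro u hu
  rw [AddSubgroup.mem_bot]
  obtain ⟨g0, g1, g2⟩ := step2 L hL h0 u hu
  -- the products `u * (e t)` have zero coordinates at `t`
  have s0 := step2 L hL h0 _ (hL ⟨0, 0, 0, 1, 0, 0, 0⟩ _ hu).2
  have s1 := step2 L hL h0 _ (hL ⟨0, 0, 0, 0, 1, 0, 0⟩ _ hu).2
  simp only [mul_def, mul_zero, mul_one, zero_sub, sub_zero, sub_self, zero_add, add_zero,
    zero_mul] at s0 s1
  have a2 : u.a2 = 0 := s0.2.1
  have a1 : u.a1 = 0 := by simpa using s0.2.2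
  have a0 : u.a0 = 0 := s1.2.2
  have k0 := (hL ⟨0, 0, 0, 1, 0, 0, 0⟩ _ hu).2
  have e : u * ⟨0, 0, 0, 1, 0, 0, 0⟩ = ⟨u.c, 0, 0, 0, 0, 0, 0⟩ := by
    ext <;> simp [mul_def, a0, a1, a2]
  rw [e] at k0
  have c0 := (step1 L hL h0 _ _ _ k0).1
  ext
  · exact a0
  · exact a1
  · exact a2
  · exact g0
  · exact g1
  · exact g2
  · exact c0

end J

/-- There is a Jordan ring `J` (commutative, `(x² y) x = x² (y x)`), in which moreover the linearised Jordan
identity holds, which is semiprime, and an ideal `I` of `J` which, regarded as a ring, is not semiprime. -/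
theorem result : ∃ (J : Type) (_ : NonUnitalNonAssocRing J),
    IsJordan J ∧ LinearizedJordan J ∧ IsSemiprimeRing J ∧
    ∃ I : NonUnitalSubring J, IsIdeal I.toAddSubgroup ∧ ¬ IsSemiprimeRing I :=
  ⟨J, inferInstance, J.isJordan, J.linearized, J.semiprime, J.I, J.I_ideal,
    fun h => J.K_ne_bot (h J.K J.K_ideal J.K_sq)⟩

end Pool.Agent.Results.MP_75529e_al.SemiprimeIdealChar2
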